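import Pool.Agent.W595.Plane.Hurwitz
import Pool.Agent.W595.Plane.Model

/-!
# The Hurwitz theorem with isotopy in all dimensions

A bilinear product on a Euclidean space of dimension `d ≥ 2` with `|B(a, b)| = |a| |b|` exists only
for `d = 2, 4, 8`; in dimension `2` it is isotopic to the complex multiplication.
-/

set_option autoImplicit false

namespace Pool.Agent.Y493.TP

open Pool.Agent.W595.Plane Pool.Agent.W595.Plane.Hurwitz
open scoped Quaternion InnerProductSpace

section General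

variable {E : Type} [NormedAddCommGroup E] [InnerProductSpace ℝ E]

/-- a unit vector orthogonal to the image of a linear map from a space of smaller dimension -/
theorem exists_orth {F : Type} [AddCommGroup F] [Module ℝ F] [FiniteDimensional ℝ F]
    [FiniteDimensional ℝ E] (φ : F →ₗ[ℝ] E)
    (hd : Module.finrank ℝ F < Module.finrank ℝ E) :
    ∃ l : E, ⟪l, l⟫_ℝ = 1 ∧ ∀ a, ⟪l, φ a⟫_ℝ = 0 := by
  have h1 : Module.finrank ℝ (LinearMap.range φ) < Module.finrank ℝ E :=
    lt_of_le_of_lt (LinearMap.finrank_range_le φ) hd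
  have h2 : LinearMap.range φ ≠ ⊤ := by
    intro h3
    rw [h3, finrank_top] at h1
    exact lt_irrefl _ h1
  have h4 : (LinearMap.range φ)ᗮ ≠ ⊥ := fun h5 =>
    h2 (Submodule.orthogonal_eq_bot_iff.1 h5)
  obtain ⟨x, hx, hx0⟩ := Submodule.exists_mem_ne_zero_of_ne_bot h4
  refine ⟨(‖x‖⁻¹ : ℝ) • x, ?_, ?_⟩
  · have : ‖x‖ ≠ 0 := norm_ne_zero_iff.2 hx0
    rw [inner_smul_left, inner_smul_right, real_inner_self_eq_norm_sq]
    simp
    field_simp
  · intro a
    rw [inner_smul_left, (Submodule.mem_orthogonal' _ x).1 hx (φ a) ⟨a, rfl⟩, mul_zero]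

variable {m : E →ₗ[ℝ] E →ₗ[ℝ] E} {u : E}

/-- images of the octonions -/
structure OHom (m : E →ₗ[ℝ] E →ₗ[ℝ] E) (u : E) (φ : Oct →ₗ[ℝ] E) : Prop where
  one : φ 1 = u
  mul : ∀ a b, φ (a * b) = m (φ a) (φ b)
  star : ∀ a, φ (star a) = cj u (φ a)
  inj : Function.Injective φ

theorem oct_not_assoc : ¬ ∀ x y z : Oct, (x * y) * z = x * (y * z) := by
  intro h
  have h1 := h ⟨⟨0, 1, 0, 0⟩, 0⟩ ⟨⟨0, 0, 1, 0⟩, 0⟩ ⟨0, 1⟩
  have h2 := congrArg (fun x : Oct => x.snd.imK) h1
  simp at h2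
  norm_num at h2

theorem omap_ohom (h : CompAlg m u) {φ : ℍ[ℝ] →ₗ[ℝ] E} (hφ : CompAlg.QHom m u φ) {l : E}
    (hl : ∀ a, ⟪l, φ a⟫_ℝ = 0) (hl1 : ⟪l, l⟫_ℝ = 1) : OHom m u (CompAlg.omap m φ l) := by
  refine ⟨?_, fun a b => h.omap_mul hφ hl hl1 a b, ?_, ?_⟩
  · simp [CompAlg.omap, hφ.one]
  · intro a
    have h2 : ⟪m (φ a.snd) l, u⟫_ℝ = 0 := by
      rw [h.adj_left, h.mul_one, ← hφ.star]
      exact hl _
    simp only [CompAlg.omap, LinearMap.coe_mk, AddHom.coe_mk, Oct.star_fst, Oct.star_snd]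
    rw [CompAlg.cj_add, CompAlg.cj_of_orth h2, hφ.star, map_neg, map_neg, LinearMap.neg_apply]
  · rw [← LinearMap.ker_eq_bot, LinearMap.ker_eq_bot']
    intro v hv
    have h1 := h.omap_norm hφ hl hl1 v
    rw [hv, norm_zero] at h1
    have h2 : ‖v.fst‖ = 0 := by nlinarith [sq_nonneg ‖v.fst‖, sq_nonneg ‖v.snd‖]
    have h3 : ‖v.snd‖ = 0 := by nlinarith [sq_nonneg ‖v.fst‖, sq_nonneg ‖v.snd‖]
    ext1
    · exact norm_eq_zero.1 h2
    · exact norm_eq_zero.1 h3

/-- The octonions cannot be doubled: nothing is orthogonal to an image of the octonions. -/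
theorem no_double (h : CompAlg m u) {φ : Oct →ₗ[ℝ] E} (hφ : OHom m u φ) {l : E}
    (hl : ∀ a, ⟪l, φ a⟫_ℝ = 0) (hl1 : ⟪l, l⟫_ℝ = 1) : False := by
  have smul_star : ∀ a b : Oct, star (a * b) = star b * star a := Model.ca_oct.star_mul
  have hlu : ⟪l, u⟫_ℝ = 0 := by rw [← hφ.one]; exact hl 1
  have orth : ∀ a, ⟪m (φ a) l, u⟫_ℝ = 0 := fun a => by
    rw [h.adj_left, h.mul_one, ← hφ.star]
    exact hl _
  have dbl1 : ∀ a, m (φ a) l = m l (φ (star a)) := by
    intro a
    have h1 := h.cj_mul (φ a) l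
    rw [CompAlg.cj_of_orth (orth a), CompAlg.cj_of_orth hlu, map_neg, LinearMap.neg_apply,
      neg_inj] at h1
    rw [h1, hφ.star]
  have dbl2 : ∀ a b, m (m (φ a) l) (φ b) = m (φ (a * star b)) l := by
    intro a b
    have h1 := h.lin_right l (φ a) (φ (star b))
    rw [hl, mul_zero, zero_smul, CompAlg.cj_of_orth hlu, map_neg, ← hφ.mul, ← hφ.star,
      star_star] at h1
    exact eq_of_add_neg_eq_zero h1
  have dbl3 : ∀ a b, m (φ a) (m (φ b) l) = m (φ (b * a)) l := by
    intro a b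
    have h1 := h.lin_left (φ a) (φ (star b)) l
    rw [real_inner_comm, hl, mul_zero, zero_smul, CompAlg.cj_of_orth hlu, map_neg,
      LinearMap.neg_apply] at h1
    rw [map_neg, ← hφ.star, ← hφ.mul, ← smul_star, ← dbl1, ← dbl1] at h1
    rw [neg_add_eq_zero] at h1
    exact h1
  apply oct_not_assoc
  -- `(b c̄) a = b (c̄ a)`
  have key : ∀ a b c : Oct, (b * star c) * a = b * (star c * a) := by
    intro a b c
    have h1 := h.lin_left (φ a) (φ c) (m (φ b) l)
    have h2 : ⟪φ a, m (φ b) l⟫_ℝ = 0 := by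
      rw [real_inner_comm, h.adj_left, ← hφ.star, ← hφ.mul, hl]
    rw [h2, mul_zero, zero_smul, CompAlg.cj_of_orth (orth b), map_neg, LinearMap.neg_apply,
      map_neg, dbl2, dbl3, ← hφ.star, ← hφ.mul, dbl2, neg_add_eq_zero, smul_star, star_star] at h1
    have h3 : m (φ ((b * star c) * a - b * (star c * a))) l = 0 := by
      rw [map_sub, map_sub, LinearMap.sub_apply, h1, sub_self]
    have h4 : ‖φ ((b * star c) * a - b * (star c * a))‖ * ‖l‖ = 0 := by
      rw [← h.norm_mul, h3, norm_zero]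
    have h5 : ‖l‖ ≠ 0 := by
      intro h6
      rw [real_inner_self_eq_norm_sq, h6] at hl1
      norm_num at hl1
    have h6 : φ ((b * star c) * a - b * (star c * a)) = φ 0 := by
      rw [map_zero]
      exact norm_eq_zero.1 ((mul_eq_zero.1 h4).resolve_right h5)
    exact sub_eq_zero.1 (hφ.inj h6)
  intro x y z
  have := key z x (star y)
  rwa [star_star] at this

/-- there is a quaternionic image as soon as the dimension is at least `3` -/
theorem exists_qhom [FiniteDimensional ℝ E] (h : CompAlg m u) (hd : 3 ≤ Module.finrank ℝ E) :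
    ∃ φ : ℍ[ℝ] →ₗ[ℝ] E, CompAlg.QHom m u φ := by
  obtain ⟨i, hi1, hi⟩ := exists_orth (LinearMap.toSpanSingleton ℝ E u) (by
    rw [Module.finrank_self]; omega)
  obtain ⟨j, hj1, hj⟩ := exists_orth
    ((LinearMap.toSpanSingleton ℝ E u).coprod (LinearMap.toSpanSingleton ℝ E i)) (by
    rw [Module.finrank_prod, Module.finrank_self]; omega)
  have hi' : ⟪i, u⟫_ℝ = 0 := by simpa using hi 1
  have hj' : ⟪j, u⟫_ℝ = 0 := by simpa using hj (1, 0)
  have hj'' : ⟪j, i⟫_ℝ = 0 := by simpa using hj (0, 1)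
  exact ⟨CompAlg.qmap m u i j, h.qmap_spec hi' hj' (by rw [real_inner_comm]; exact hj'') hi1 hj1⟩

/-- **Hurwitz**: dimensions of unital composition products -/
theorem dim_compAlg [FiniteDimensional ℝ E] (h : CompAlg m u) (hd : 2 ≤ Module.finrank ℝ E) :
    Module.finrank ℝ E = 2 ∨ Module.finrank ℝ E = 4 ∨ Module.finrank ℝ E = 8 := by
  by_cases h2 : Module.finrank ℝ E = 2
  · exact Or.inl h2
  obtain ⟨φ, hφ⟩ := exists_qhom h (by omega)
  have hφi : Function.Injective φ := by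
    rw [← LinearMap.ker_eq_bot, LinearMap.ker_eq_bot']
    intro v hv
    rw [← norm_eq_zero, ← hφ.norm, hv, norm_zero]
  have h4 : 4 ≤ Module.finrank ℝ E := by
    rw [← Quaternion.finrank_eq_four (R := ℝ)]
    exact LinearMap.finrank_le_finrank_of_injective hφi
  by_cases h4' : Module.finrank ℝ E = 4
  · exact Or.inr (Or.inl h4')
  obtain ⟨l, hl1, hl⟩ := exists_orth φ (by rw [Quaternion.finrank_eq_four]; omega)
  have hO := omap_ohom h hφ hl hl1
  have h8 : 8 ≤ Module.finrank ℝ E := by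
    rw [← finrank_oct]
    exact LinearMap.finrank_le_finrank_of_injective hO.inj
  by_cases h8' : Module.finrank ℝ E = 8
  · exact Or.inr (Or.inr h8')
  obtain ⟨l', hl1', hl'⟩ := exists_orth (CompAlg.omap m φ l) (by rw [finrank_oct]; omega)
  exact (no_double h hO hl' hl1').elim

/-- the linear map from the complex numbers given by `i` -/
noncomputable def cmap (u i : E) : ℂ →ₗ[ℝ] E where
  toFun z := z.re • u + z.im • i
  map_add' p q := by
    simp only [Complex.add_re, Complex.add_im]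
    module
  map_smul' r q := by
    simp only [Complex.real_smul, Complex.mul_re, Complex.mul_im, Complex.ofReal_re,
      Complex.ofReal_im, RingHom.id_apply]
    module

theorem cmap_apply (u i : E) (z : ℂ) : cmap u i z = z.re • u + z.im • i := rfl

end General

/-- **Hurwitz theorem: dimensions.** -/
theorem hurwitz_dim {d : ℕ} (hd : 2 ≤ d) (B : Eu d →ₗ[ℝ] Eu d →ₗ[ℝ] Eu d)
    (hB : ∀ a b, ‖B a b‖ = ‖a‖ * ‖b‖) : d = 2 ∨ d = 4 ∨ d = 8 := by
  obtain ⟨R, L, m, u, hR, hL, h, hm⟩ := isotopy (by omega) B hB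
  have h1 : Module.finrank ℝ (Eu d) = d := by simp
  have h2 := dim_compAlg h (by rw [h1]; exact hd)
  rwa [h1] at h2

/-- **Hurwitz theorem with isotopy, dimension 2.** -/
theorem hurwitz_complex (B : Eu 2 →ₗ[ℝ] Eu 2 →ₗ[ℝ] Eu 2) (hB : ∀ a b, ‖B a b‖ = ‖a‖ * ‖b‖) :
    ∃ e₀ e₁ e₂ : Eu 2 ≃ₗ[ℝ] ℂ, (∀ a, ‖e₀ a‖ = ‖a‖) ∧ (∀ a, ‖e₁ a‖ = ‖a‖) ∧
      (∀ a, ‖e₂ a‖ = ‖a‖) ∧ ∀ a b, e₀ (B a b) = e₁ a * e₂ b := by
  obtain ⟨R, L, m, u, hR, hL, h, hm⟩ := isotopy (by norm_num) B hB
  obtain ⟨i, hi1, hi⟩ := exists_orth (LinearMap.toSpanSingleton ℝ (Eu 2) u) (by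
    rw [Module.finrank_self]; simp)
  have hi' : ⟪i, u⟫_ℝ = 0 := by simpa using hi 1
  have eii : m i i = -u := h.mul_self_of_orth hi' hi1
  have hmul : ∀ a b, cmap u i (a * b) = m (cmap u i a) (cmap u i b) := by
    intro a b
    simp only [cmap_apply, map_add, map_smul, LinearMap.add_apply, LinearMap.smul_apply,
      h.one_mul, h.mul_one, eii, Complex.mul_re, Complex.mul_im]
    module
  have hnorm : ∀ a, ‖cmap u i a‖ = ‖a‖ := by
    intro a
    have hui : ⟪u, i⟫_ℝ = 0 := by rw [real_inner_comm, hi']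
    have h1 : ⟪cmap u i a, cmap u i a⟫_ℝ = Complex.normSq a := by
      simp only [cmap_apply, inner_add_left, inner_add_right, inner_smul_left, inner_smul_right,
        hi', hui, h.inner_one, hi1, Complex.normSq_apply]
      simp
    rw [real_inner_self_eq_norm_sq, Complex.normSq_eq_norm_sq] at h1
    exact (sq_eq_sq₀ (norm_nonneg _) (norm_nonneg _)).1 h1
  have hφi : Function.Injective (cmap u i) := by
    rw [← LinearMap.ker_eq_bot, LinearMap.ker_eq_bot']
    intro v hv
    rw [← norm_eq_zero, ← hnorm, hv, norm_zero]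
  let e := LinearEquiv.ofInjectiveOfFinrankEq (cmap u i) hφi (by
    rw [Complex.finrank_real_complex]; simp)
  have he : ∀ a, e a = cmap u i a := fun a => rfl
  have hen : ∀ a, ‖e.symm a‖ = ‖a‖ := fun a => by
    rw [← hnorm, ← he, e.apply_symm_apply]
  refine ⟨e.symm, R.trans e.symm, L.trans e.symm, hen, ?_, ?_, ?_⟩
  · intro a; rw [LinearEquiv.trans_apply, hen, hR]
  · intro a; rw [LinearEquiv.trans_apply, hen, hL]
  · intro a b
    rw [LinearEquiv.trans_apply, LinearEquiv.trans_apply, LinearEquiv.symm_apply_eq, he, hmul,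
      ← he, ← he, e.apply_symm_apply, e.apply_symm_apply, hm]

/-- the complex numbers as a composition algebra -/
theorem ca_complex : Model.CA ℂ (fun z => Complex.normSq z) where
  add_mul := add_mul
  mul_add := mul_add
  smul_mul := smul_mul_assoc
  mul_smul := mul_smul_comm
  one_mul := one_mul
  mul_one := mul_one
  star_mul := star_mul
  star_one := star_one ℂ
  one_ne := one_ne_zero
  star_mul_mul x y := by
    rw [← mul_assoc, mul_comm (star x) x, ← starRingEnd_apply, Complex.mul_conj, Complex.real_smul]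
  mul_mul_star x y := by
    rw [mul_assoc, ← starRingEnd_apply, Complex.mul_conj, Complex.real_smul, mul_comm]
  N_star x := by
    rw [← starRingEnd_apply]; exact Complex.normSq_conj x
  N_nonneg x := Complex.normSq_nonneg x
  N_eq_zero x hx := Complex.normSq_eq_zero.1 hx
  N_smul r x := by
    simp only [Complex.real_smul, Complex.normSq_mul, Complex.normSq_ofReal]
    ring
  real x hx := by
    refine ⟨x.re, ?_⟩
    have h1 := congrArg Complex.im hx
    rw [← starRingEnd_apply, Complex.conj_im] at h1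
    apply Complex.ext
    · simp
    · simp; linarith

theorem model_complex {M E : Type} [AddCommGroup E] [Module ℝ E] (f : M → E) (h : Geo 2 f) :
    ProjectivelyEquivalent (stdModel ℂ) (Set.range f) := by
  refine ca_complex.model f h fun B hB => ?_
  obtain ⟨e₀, e₁, e₂, n0, n1, n2, he⟩ := hurwitz_complex B hB
  refine ⟨e₀, e₁, e₂, fun a => ?_, fun a => ?_, fun a => ?_, he⟩
  · rw [Complex.normSq_eq_norm_sq, n0]
  · rw [Complex.normSq_eq_norm_sq, n1]
  · rw [Complex.normSq_eq_norm_sq, n2]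

/-- the dimension in the algebraic description -/
theorem dim_of_geo {d : ℕ} (hd : 2 ≤ d) {M E : Type} [AddCommGroup E] [Module ℝ E] {f : M → E}
    (h : Geo d f) : d = 2 ∨ d = 4 ∨ d = 8 := by
  obtain ⟨_, B, hB, _⟩ := h
  exact hurwitz_dim hd B hB

end Pool.Agent.Y493.TP
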